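import Mathlib

namespace Pool.Agent.Results.MP_f96d9d_nt.Full

open Finset

/-- `u ≡ v (mod p^m)` for rationals: `(u - v) / p^m` has denominator prime to `p` -/
def cong (p m : ℕ) (u v : ℚ) : Prop := ¬ p ∣ ((u - v) / (p : ℚ) ^ m).den

instance (p m : ℕ) (u v : ℚ) : Decidable (cong p m u v) := by unfold cong; infer_instance

/-- the generalized central trinomial coefficient `T_n(b,c)` -/
def T (n : ℕ) (b c : ℤ) : ℤ :=
  ∑ j ∈ range (n / 2 + 1), (n.choose (2 * j) : ℤ) * ((2 * j).choose j : ℤ) * b ^ (n - 2 * j) * c ^ j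

theorem result :
    (¬ ∀ p : ℕ, p.Prime → 3 < p → p % 4 = 3 →
      cong p 2 (∑ k ∈ range p, (T k 18 49 : ℚ) ^ 3 / 4096 ^ k) 0) ∧
    (¬ ∀ p : ℕ, p.Prime → 3 < p → (p % 8 = 5 ∨ p % 8 = 7) →
      cong p 2 ((jacobiSym (-1) p : ℚ) * ∑ k ∈ range p, (T k 10 49 : ℚ) ^ 3 / (-512) ^ k) 0) := by
  refine ⟨fun h => ?_, fun h => ?_⟩
  · have h1 := h 7 (by norm_num) (by norm_num) (by norm_num)
    revert h1
    simp only [T, Nat.choose_eq_descFactorial_div_factorial]
    decide +kernel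
  · have h1 := h 7 (by norm_num) (by norm_num) (by norm_num)
    have e : jacobiSym (-1) 7 = -1 := by norm_num
    rw [e] at h1
    revert h1
    simp only [T, Nat.choose_eq_descFactorial_div_factorial]
    decide +kernel

end Pool.Agent.Results.MP_f96d9d_nt.Full
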